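import Mathlib
import Pool.Agent.H945R3.BaseChange

set_option autoImplicit false
set_option linter.style.haveILetI false

namespace Pool.Agent.Results.MP_a8f336_ag.ApproximationDegree

open Module PowerSeries TensorProduct
open scoped LaurentSeries

universe u

/-- `𝒜` is an abstract smoothing of the finite `k`-algebra `A`: a finite flat `k[[t]]`-algebra with
geometrically reduced generic fibre and special fibre isomorphic to `A` as a `k`-algebra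
(`k` acts on `𝒜 / t𝒜` through the constant power series). -/
structure IsAbstractSmoothing (k A 𝒜 : Type u) [Field k] [CommRing A] [Algebra k A]
    [CommRing 𝒜] [Algebra k⟦X⟧ 𝒜] : Prop where
  finite : Module.Finite k⟦X⟧ 𝒜
  flat : Module.Flat k⟦X⟧ 𝒜
  generic : IsReduced (AlgebraicClosure k⸨X⸩ ⊗[k⸨X⸩] (k⸨X⸩ ⊗[k⟦X⟧] 𝒜))
  special : ∃ e : (𝒜 ⧸ Ideal.span {algebraMap k⟦X⟧ 𝒜 X}) ≃+* A,
    ∀ c : k, e (Ideal.Quotient.mk _ (algebraMap k⟦X⟧ 𝒜 (C c))) = algebraMap k A c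

/-- `Spec A` is smoothable: `A` has an abstract smoothing. -/
def Smoothable (k A : Type u) [Field k] [CommRing A] [Algebra k A] : Prop :=
  ∃ (𝒜 : Type u) (_ : CommRing 𝒜) (_ : Algebra k⟦X⟧ 𝒜), IsAbstractSmoothing k A 𝒜

/-- The generic fibre of `𝒜` is the product of `d = dim_k A` copies of `k((t))`. -/
def CompletelySplit (k A 𝒜 : Type u) [Field k] [CommRing A] [Algebra k A]
    [CommRing 𝒜] [Algebra k⟦X⟧ 𝒜] : Prop :=
  Nonempty ((k⸨X⸩ ⊗[k⟦X⟧] 𝒜) ≃ₐ[k⸨X⸩] (Fin (finrank k A) → k⸨X⸩))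

/-- `ad(𝒜; e)`: the largest valuation of a nonzero structure constant `c_ij^l` of `𝒜` with respect
to the `k[[t]]`-basis `e`, where `e_i e_j = ∑_l c_ij^l e_l`. (`ENat.toNat` sends the order `⊤` of
the zero series to `0`, so vanishing structure constants are ignored.) -/
noncomputable def ad {k 𝒜 ι : Type*} [Field k] [CommRing 𝒜] [Algebra k⟦X⟧ 𝒜] [Fintype ι]
    (e : Basis ι k⟦X⟧ 𝒜) : ℕ :=
  Finset.univ.sup fun t : ι × ι × ι => (e.repr (e t.1 * e t.2.1) t.2.2).order.toNat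

/-- The approximation degree of `𝒜`: the minimum of `ad(𝒜; e)` over all `k[[t]]`-bases `e`. -/
noncomputable def approximationDegree (k 𝒜 : Type u) [Field k] [CommRing 𝒜]
    [Algebra k⟦X⟧ 𝒜] : ℕ :=
  sInf {N | ∃ e : Basis (Fin (finrank k⟦X⟧ 𝒜)) k⟦X⟧ 𝒜, ad e = N}

theorem finrank_eq {k A B : Type u} [Field k] [CommRing A] [Algebra k A] [CommRing B]
    [Algebra k⟦X⟧ B] [Module.Finite k⟦X⟧ B] [Module.Flat k⟦X⟧ B]
    (ψ : B →+* A) (hsurj : Function.Surjective ψ)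
    (hX : ψ (algebraMap k⟦X⟧ B X) = 0)
    (hker : ∀ x, ψ x = 0 → ∃ y, x = (X : k⟦X⟧) • y)
    (hC : ∀ c : k, ψ (algebraMap k⟦X⟧ B (C c)) = algebraMap k A c) :
    finrank k⟦X⟧ B = finrank k A := by
  classical
  haveI : Module.Free k⟦X⟧ B := Module.free_of_flat_of_isLocalRing
  let b : Basis (Fin (finrank k⟦X⟧ B)) k⟦X⟧ B := Module.finBasis k⟦X⟧ B
  have hsm := H945R3.constantCoeff_smul_map ψ hX hC
  have hli : LinearIndependent k (ψ ∘ b) := by
    rw [Fintype.linearIndependent_iff]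
    intro g hg i
    have h1 : ψ (∑ i, (C (g i) : k⟦X⟧) • b i) = 0 := by
      rw [map_sum]
      simp only [hsm, constantCoeff_C]
      exact hg
    obtain ⟨y, hy⟩ := hker _ h1
    have h2 := congrArg (fun z => b.repr z i) hy
    simp only [map_sum, map_smul, Basis.repr_self, Finsupp.coe_finsetSum, Finset.sum_apply,
      Finsupp.coe_smul, Pi.smul_apply, smul_eq_mul, Finsupp.single_apply, mul_ite, mul_one,
      mul_zero, Finset.sum_ite_eq', Finset.mem_univ, if_true] at h2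
    have h3 := congrArg constantCoeff h2
    simpa using h3
  have hsp : ⊤ ≤ Submodule.span k (Set.range (ψ ∘ b)) := by
    intro a _
    obtain ⟨x, rfl⟩ := hsurj a
    rw [← b.sum_repr x, map_sum]
    apply Submodule.sum_mem
    intro i _
    rw [hsm]
    exact Submodule.smul_mem _ _ (Submodule.subset_span ⟨i, rfl⟩)
  let b' : Basis (Fin (finrank k⟦X⟧ B)) k A := Basis.mk hli hsp
  rw [finrank_eq_card_basis b', Fintype.card_fin]

/-- Data of the special fibre, extracted from an abstract smoothing. -/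
theorem exists_special {k A 𝒜 : Type u} [Field k] [CommRing A] [Algebra k A]
    [CommRing 𝒜] [Algebra k⟦X⟧ 𝒜] (h : IsAbstractSmoothing k A 𝒜) :
    ∃ ψ : 𝒜 →+* A, Function.Surjective ψ ∧ ψ (algebraMap k⟦X⟧ 𝒜 X) = 0 ∧
      (∀ x, ψ x = 0 → ∃ y, x = (X : k⟦X⟧) • y) ∧
      ∀ c : k, ψ (algebraMap k⟦X⟧ 𝒜 (C c)) = algebraMap k A c := by
  obtain ⟨e, he⟩ := h.special
  refine ⟨(e : (𝒜 ⧸ Ideal.span {algebraMap k⟦X⟧ 𝒜 X}) →+* A).comp (Ideal.Quotient.mk _),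
    e.surjective.comp Ideal.Quotient.mk_surjective, ?_, ?_, he⟩
  · change e _ = 0
    rw [Ideal.Quotient.eq_zero_iff_mem.mpr (Ideal.mem_span_singleton_self _), map_zero]
  · intro x hx
    have h1 : e (Ideal.Quotient.mk _ x) = 0 := hx
    rw [EmbeddingLike.map_eq_zero_iff, Ideal.Quotient.eq_zero_iff_mem,
      Ideal.mem_span_singleton] at h1
    obtain ⟨y, hy⟩ := h1
    exact ⟨y, by rw [hy, Algebra.smul_def]⟩

theorem ad_eq_zero {k A 𝒜 : Type u} [Field k] [Infinite k] [CommRing A] [Algebra k A]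
    [CommRing 𝒜] [Algebra k⟦X⟧ 𝒜] [Module.Finite k⟦X⟧ 𝒜] [Module.Flat k⟦X⟧ 𝒜]
    (ψ : 𝒜 →+* A) (hsurj : Function.Surjective ψ)
    (hX : ψ (algebraMap k⟦X⟧ 𝒜 X) = 0)
    (hker : ∀ x, ψ x = 0 → ∃ y, x = (X : k⟦X⟧) • y)
    (hC : ∀ c : k, ψ (algebraMap k⟦X⟧ 𝒜 (C c)) = algebraMap k A c) :
    ∃ e : Basis (Fin (finrank k⟦X⟧ 𝒜)) k⟦X⟧ 𝒜, ad e = 0 := by
  obtain ⟨e, he⟩ := H945R3.exists_unit_basis ψ hsurj hX hker hC
  refine ⟨e, ?_⟩
  unfold ad
  rw [← Nat.bot_eq_zero, Finset.sup_eq_bot_iff]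
  intro t _
  have h1 : (e.repr (e t.1 * e t.2.1) t.2.2).order = 0 := by
    by_contra hne
    apply he t.1 t.2.1 t.2.2
    have := PowerSeries.coeff_of_lt_order (φ := e.repr (e t.1 * e t.2.1) t.2.2) 0
      (by exact_mod_cast pos_iff_ne_zero.mpr hne)
    simpa using this
  rw [h1]
  rfl

theorem assemble {k A 𝒜 : Type u} [Field k] [Infinite k] [CommRing A] [Algebra k A]
    [CommRing 𝒜] [Algebra k⟦X⟧ 𝒜] [Module.Finite k⟦X⟧ 𝒜] [Module.Flat k⟦X⟧ 𝒜]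
    (hsplit : Algebra.IsFiniteSplit k⸨X⸩ (k⸨X⸩ ⊗[k⟦X⟧] 𝒜))
    (ψ : 𝒜 →+* A) (hsurj : Function.Surjective ψ)
    (hX : ψ (algebraMap k⟦X⟧ 𝒜 X) = 0)
    (hker : ∀ x, ψ x = 0 → ∃ y, x = (X : k⟦X⟧) • y)
    (hC : ∀ c : k, ψ (algebraMap k⟦X⟧ 𝒜 (C c)) = algebraMap k A c) :
    IsAbstractSmoothing k A 𝒜 ∧ CompletelySplit k A 𝒜 ∧ approximationDegree k 𝒜 = 0 ∧
      ∃ e : Basis (Fin (finrank k⟦X⟧ 𝒜)) k⟦X⟧ 𝒜, ad e = 0 := by
  haveI : Module.Free k⟦X⟧ 𝒜 := Module.free_of_flat_of_isLocalRing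
  have hrank := finrank_eq ψ hsurj hX hker hC
  have had := ad_eq_zero ψ hsurj hX hker hC
  refine ⟨⟨inferInstance, inferInstance, ?_, ?_⟩, ?_, ?_, had⟩
  · have h1 : Algebra.IsFiniteSplit (AlgebraicClosure k⸨X⸩)
        (AlgebraicClosure k⸨X⸩ ⊗[k⸨X⸩] (k⸨X⸩ ⊗[k⟦X⟧] 𝒜)) := inferInstance
    obtain ⟨n, ⟨e⟩⟩ := h1.nonempty_algEquiv_fun
    exact isReduced_of_injective e e.injective
  · have hkereq : RingHom.ker ψ = Ideal.span {algebraMap k⟦X⟧ 𝒜 X} := by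
      ext x
      rw [RingHom.mem_ker, Ideal.mem_span_singleton]
      constructor
      · intro h
        obtain ⟨y, hy⟩ := hker x h
        exact ⟨y, by rw [hy, Algebra.smul_def]⟩
      · rintro ⟨y, rfl⟩
        rw [map_mul, hX, zero_mul]
    refine ⟨(Ideal.quotEquivOfEq hkereq.symm).trans (RingHom.quotientKerEquivOfSurjective hsurj),
      fun c => ?_⟩
    rw [← hC c]
    rfl
  · obtain ⟨n, ⟨e⟩⟩ := hsplit.nonempty_algEquiv_fun
    have hn : n = finrank k A := by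
      have h1 : finrank k⸨X⸩ (k⸨X⸩ ⊗[k⟦X⟧] 𝒜) = n := by
        rw [e.toLinearEquiv.finrank_eq, finrank_fin_fun]
      rw [← h1, finrank_baseChange, hrank]
    subst hn
    exact ⟨e⟩
  · unfold approximationDegree
    rw [Nat.sInf_eq_zero]
    exact Or.inl had

/-- A copy of the field of Laurent series. -/
def LS (k : Type u) [Field k] : Type u := k⸨X⸩

noncomputable instance (k : Type u) [Field k] : Field (LS k) := inferInstanceAs (Field k⸨X⸩)

/-- **Theorem.** Let `k` be an algebraically closed field and let `A` be a finite `k`-algebra with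
`Spec A` smoothable. Then there is a completely split abstract smoothing of `A` whose
approximation degree is `0` (and the value `0` is attained by a `k[[t]]`-basis). -/
theorem result (k : Type u) [Field k] [IsAlgClosed k] (A : Type u) [CommRing A] [Algebra k A]
    [Module.Finite k A] (hA : Smoothable k A) :
    ∃ (𝒜 : Type u) (_ : CommRing 𝒜) (_ : Algebra k⟦X⟧ 𝒜),
      IsAbstractSmoothing k A 𝒜 ∧ CompletelySplit k A 𝒜 ∧ approximationDegree k 𝒜 = 0 ∧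
      ∃ e : Basis (Fin (finrank k⟦X⟧ 𝒜)) k⟦X⟧ 𝒜, ad e = 0 := by
  classical
  haveI : Infinite k := IsAlgClosed.instInfinite
  obtain ⟨B, _, _, hB⟩ := hA
  haveI := hB.finite
  haveI := hB.flat
  obtain ⟨ψ, hsurj, hX, hker, hC⟩ := exists_special hB
  obtain ⟨L, _, _, _, _, hsplit⟩ := H945R3.exists_split_extension k⸨X⸩ (k⸨X⸩ ⊗[k⟦X⟧] B) hB.generic
  obtain ⟨ρ, σ, hρC, hρ0, hσ⟩ := H945R3.exists_embedding (k := k) L
  let toLS : H945R3.PS k →+* LS k := algebraMap k⟦X⟧ k⸨X⸩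
  letI i1 : Algebra k⟦X⟧ (H945R3.PS k) := (ρ : k⟦X⟧ →+* H945R3.PS k).toAlgebra
  letI i2 : Algebra (H945R3.PS k) (LS k) := toLS.toAlgebra
  letI i3 : Algebra k⟦X⟧ (LS k) := (toLS.comp (ρ : k⟦X⟧ →+* H945R3.PS k)).toAlgebra
  haveI : IsScalarTower k⟦X⟧ (H945R3.PS k) (LS k) := IsScalarTower.of_algebraMap_eq fun _ => rfl
  letI i4 : Algebra L (LS k) := (σ : L →+* LS k).toAlgebra
  letI i5 : Algebra k⸨X⸩ (LS k) := ((σ : L →+* LS k).comp (algebraMap k⸨X⸩ L)).toAlgebra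
  haveI : IsScalarTower k⸨X⸩ L (LS k) := IsScalarTower.of_algebraMap_eq fun _ => rfl
  haveI : IsScalarTower k⟦X⟧ k⸨X⸩ (LS k) := IsScalarTower.of_algebraMap_eq fun f => (hσ f).symm
  have hs : Algebra.IsFiniteSplit (LS k) (LS k ⊗[H945R3.PS k] (H945R3.PS k ⊗[k⟦X⟧] B)) :=
    H945R3.split_baseChange (R := k⟦X⟧) (K := k⸨X⸩) (S := H945R3.PS k) (F := LS k) (L := L)
      (B := B) hsplit
  obtain ⟨Ψ, hΨs, hΨX, hΨk, hΨC⟩ := H945R3.special_baseChange (k := k) (A := A) (B := B)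
    (fun c => hρC c) (fun f => hρ0 f) ψ hsurj hX hker hC
  have hfin : Module.Finite (H945R3.PS k) (H945R3.PS k ⊗[k⟦X⟧] B) := inferInstance
  have hflat : Module.Flat (H945R3.PS k) (H945R3.PS k ⊗[k⟦X⟧] B) := inferInstance
  exact ⟨H945R3.PS k ⊗[k⟦X⟧] B, inferInstance,
    (inferInstance : Algebra (H945R3.PS k) (H945R3.PS k ⊗[k⟦X⟧] B)),
    @assemble k A (H945R3.PS k ⊗[k⟦X⟧] B) _ _ _ _ _
      (inferInstance : Algebra (H945R3.PS k) (H945R3.PS k ⊗[k⟦X⟧] B)) hfin hflat hs Ψ hΨs hΨX hΨk hΨC⟩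

end Pool.Agent.Results.MP_a8f336_ag.ApproximationDegree
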